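import Mathlib

/-!
Oriented paths in digraphs with few transitive triangles on every arc: the greedy construction
with one step of lookahead (`MP_f8e2d3_co`).
-/

set_option autoImplicit false

namespace Pool.Agent.Helper95.Stein

variable {V : Type} [Fintype V]

/-- Counting: if at most `p` indices `i` of a set `I` of indices below `j` have `i + 1` in `I`,
then `I` has at most `(j + 1 + p) / 2` elements. -/
theorem count (j p : ℕ) (I : Finset ℕ) (hI : ∀ i ∈ I, i < j)
    (hp : (I.filter fun i => i + 1 ∈ I).card ≤ p) : 2 * I.card ≤ j + 1 + p := by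
  classical
  have h1 : (I.filter fun i => i + 1 ∈ I).card + (I.filter fun i => ¬ (i + 1 ∈ I)).card = I.card :=
    Finset.card_filter_add_card_filter_not _
  have h2 : ((I.filter fun i => ¬ (i + 1 ∈ I)).image fun i => i + 1).card =
      (I.filter fun i => ¬ (i + 1 ∈ I)).card :=
    Finset.card_image_of_injective _ (fun a b h => by simpa using h)
  have h3 : Disjoint I ((I.filter fun i => ¬ (i + 1 ∈ I)).image fun i => i + 1) := by
    rw [Finset.disjoint_left]
    intro a ha hb
    obtain ⟨i, hi, rfl⟩ := Finset.mem_image.1 hb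
    exact (Finset.mem_filter.1 hi).2 ha
  have h4 : I ∪ ((I.filter fun i => ¬ (i + 1 ∈ I)).image fun i => i + 1) ⊆ Finset.range (j + 1) := by
    intro a ha
    rw [Finset.mem_range]
    rcases Finset.mem_union.1 ha with h | h
    · have := hI a h; omega
    · obtain ⟨i, hi, rfl⟩ := Finset.mem_image.1 h
      have := hI i (Finset.mem_filter.1 hi).1
      omega
  have h5 := Finset.card_le_card h4
  rw [Finset.card_union_of_disjoint h3, h2, Finset.card_range] at h5
  omega

open Classical in
/-- One step of the construction. -/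
theorem step (R : Bool → V → V → Prop) (hloop : ∀ b v, ¬ R b v v) (t p d k : ℕ)
    (hdeg : ∀ b v, d ≤ (Finset.univ.filter fun w => R b v w).card)
    (hcod : ∀ b b' x y, R b' x y → (Finset.univ.filter fun w => R b w x ∧ R b w y).card ≤ t)
    (hd : (k + p) * (p + 1) + 2 * (k * t) < 2 * d * (p + 1))
    (σ : ℕ → Bool) (f : ℕ → V) (j : ℕ) (hj : j < k)
    (hw : ∀ i < j, R (σ i) (f i) (f (i + 1)))
    (hg : ((Finset.range j).filter fun i =>
      R (σ j) (f j) (f i) ∧ R (σ j) (f j) (f (i + 1))).card ≤ p) :
    ∃ y, R (σ j) (f j) y ∧ (∀ i ≤ j, f i ≠ y) ∧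
      ((Finset.range j).filter fun i =>
        R (σ (j + 1)) y (f i) ∧ R (σ (j + 1)) y (f (i + 1))).card ≤ p := by
  set N := Finset.univ.filter fun w => R (σ j) (f j) w with hN
  set I := (Finset.range j).filter fun i => R (σ j) (f j) (f i) with hI
  set B := Finset.univ.filter fun y : V => p < ((Finset.range j).filter fun i =>
        R (σ (j + 1)) y (f i) ∧ R (σ (j + 1)) y (f (i + 1))).card with hB
  -- the used neighbours
  have hI2 : 2 * I.card ≤ j + 1 + p := by
    apply count j p I (fun i hi => Finset.mem_range.1 (Finset.mem_filter.1 hi).1)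
    refine le_trans (Finset.card_le_card ?_) hg
    intro i hi
    rw [Finset.mem_filter] at hi
    obtain ⟨h1, h2⟩ := hi
    rw [hI, Finset.mem_filter] at h1 h2
    exact Finset.mem_filter.2 ⟨h1.1, h1.2, h2.2⟩
  -- the bad vertices
  have hBc : (p + 1) * B.card ≤ j * t := by
    have h1 : (p + 1) * B.card ≤ ∑ y : V, ((Finset.range j).filter fun i =>
        R (σ (j + 1)) y (f i) ∧ R (σ (j + 1)) y (f (i + 1))).card := by
      calc (p + 1) * B.card = ∑ _y ∈ B, (p + 1) := by
            rw [Finset.sum_const, smul_eq_mul, mul_comm]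
        _ ≤ ∑ y ∈ B, ((Finset.range j).filter fun i =>
            R (σ (j + 1)) y (f i) ∧ R (σ (j + 1)) y (f (i + 1))).card :=
            Finset.sum_le_sum fun y hy => (Finset.mem_filter.1 hy).2
        _ ≤ _ := Finset.sum_le_sum_of_subset (Finset.subset_univ B)
    have h2 : ∑ y : V, ((Finset.range j).filter fun i =>
        R (σ (j + 1)) y (f i) ∧ R (σ (j + 1)) y (f (i + 1))).card =
        ∑ i ∈ Finset.range j, (Finset.univ.filter fun y =>
          R (σ (j + 1)) y (f i) ∧ R (σ (j + 1)) y (f (i + 1))).card := by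
      simp only [Finset.card_filter]
      exact Finset.sum_comm
    have h3 : ∑ i ∈ Finset.range j, (Finset.univ.filter fun y =>
          R (σ (j + 1)) y (f i) ∧ R (σ (j + 1)) y (f (i + 1))).card ≤ ∑ _i ∈ Finset.range j, t :=
      Finset.sum_le_sum fun i hi => hcod _ _ _ _ (hw i (Finset.mem_range.1 hi))
    rw [Finset.sum_const, Finset.card_range, smul_eq_mul] at h3
    exact h1.trans (h2.le.trans h3)
  have hcard : I.card + B.card < N.card := by
    have h1 : j * t ≤ k * t := Nat.mul_le_mul_right t hj.le
    have h2 := hdeg (σ j) (f j)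
    rw [← hN] at h2
    have h3 : 2 * (p + 1) * (I.card + B.card) < 2 * (p + 1) * N.card := by
      calc 2 * (p + 1) * (I.card + B.card)
          = (p + 1) * (2 * I.card) + 2 * ((p + 1) * B.card) := by ring
        _ ≤ (p + 1) * (k + p) + 2 * (k * t) := by
            refine Nat.add_le_add (Nat.mul_le_mul_left _ (by omega))
              (Nat.mul_le_mul_left _ (hBc.trans h1))
        _ = (k + p) * (p + 1) + 2 * (k * t) := by ring
        _ < 2 * d * (p + 1) := hd
        _ = 2 * (p + 1) * d := by ring
        _ ≤ 2 * (p + 1) * N.card := Nat.mul_le_mul_left _ h2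
    exact lt_of_mul_lt_mul_left h3 (Nat.zero_le _)
  have hlt : (I.image f ∪ B).card < N.card :=
    lt_of_le_of_lt ((Finset.card_union_le _ _).trans
      (Nat.add_le_add_right Finset.card_image_le _)) hcard
  obtain ⟨y, hyN, hyI⟩ := Finset.exists_mem_notMem_of_card_lt_card hlt
  have hyN' : R (σ j) (f j) y := (Finset.mem_filter.1 hyN).2
  refine ⟨y, hyN', ?_, ?_⟩
  · intro i hi he
    rcases Nat.lt_or_ge i j with h | h
    · apply hyI
      refine Finset.mem_union_left _ (Finset.mem_image.2 ⟨i, ?_, he⟩)
      exact Finset.mem_filter.2 ⟨Finset.mem_range.2 h, by rw [he]; exact hyN'⟩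
    · have hij : i = j := le_antisymm hi h
      subst hij
      rw [← he] at hyN'
      exact hloop _ _ hyN'
  · by_contra hcon
    apply hyI
    exact Finset.mem_union_right _ (Finset.mem_filter.2 ⟨Finset.mem_univ _, not_le.1 hcon⟩)

open Classical in
/-- The greedy construction. -/
theorem path (R : Bool → V → V → Prop) [Nonempty V] (hloop : ∀ b v, ¬ R b v v) (t p d k : ℕ)
    (hdeg : ∀ b v, d ≤ (Finset.univ.filter fun w => R b v w).card)
    (hcod : ∀ b b' x y, R b' x y → (Finset.univ.filter fun w => R b w x ∧ R b w y).card ≤ t)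
    (hd : (k + p) * (p + 1) + 2 * (k * t) < 2 * d * (p + 1))
    (σ : ℕ → Bool) : ∀ j ≤ k, ∃ f : ℕ → V, (∀ i ≤ j, ∀ i' ≤ j, f i = f i' → i = i') ∧
      (∀ i < j, R (σ i) (f i) (f (i + 1))) ∧ ((Finset.range j).filter fun i =>
        R (σ j) (f j) (f i) ∧ R (σ j) (f j) (f (i + 1))).card ≤ p := by
  intro j
  induction j with
  | zero =>
    intro _
    obtain ⟨v⟩ := ‹Nonempty V›
    refine ⟨fun _ => v, fun i hi i' hi' _ => by omega, fun i hi => absurd hi (Nat.not_lt_zero _), ?_⟩
    simp
  | succ j ih =>
    intro hj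
    obtain ⟨f, hinj, hw, hg⟩ := ih (by omega)
    obtain ⟨y, hy1, hy2, hy3⟩ := step R hloop t p d k hdeg hcod hd σ f j (by omega) hw hg
    have hu : ∀ i ≤ j, Function.update f (j + 1) y i = f i := fun i hi =>
      Function.update_of_ne (by omega) _ _
    have hu' : Function.update f (j + 1) y (j + 1) = y := Function.update_self _ _ _
    refine ⟨Function.update f (j + 1) y, ?_, ?_, ?_⟩
    · intro i hi i' hi' he
      rcases Nat.lt_or_ge i (j + 1) with h | h
      · rcases Nat.lt_or_ge i' (j + 1) with h' | h'
        · rw [hu i (by omega), hu i' (by omega)] at he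
          exact hinj i (by omega) i' (by omega) he
        · have : i' = j + 1 := by omega
          subst this
          rw [hu i (by omega), hu'] at he
          exact absurd he (hy2 i (by omega))
      · have : i = j + 1 := by omega
        subst this
        rcases Nat.lt_or_ge i' (j + 1) with h' | h'
        · rw [hu i' (by omega), hu'] at he
          exact absurd he.symm (hy2 i' (by omega))
        · omega
    · intro i hi
      rcases Nat.lt_or_ge i j with h | h
      · rw [hu i (by omega), hu (i + 1) (by omega)]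
        exact hw i h
      · have : i = j := by omega
        subst this
        rw [hu i le_rfl, hu']
        exact hy1
    · rw [hu']
      refine le_trans (Finset.card_le_card ?_) hy3
      intro i hi
      rw [Finset.mem_filter, Finset.mem_range] at hi
      obtain ⟨h1, h2, h3⟩ := hi
      rcases Nat.lt_or_ge i j with h | h
      · rw [hu i (by omega)] at h2
        rw [hu (i + 1) (by omega)] at h3
        exact Finset.mem_filter.2 ⟨Finset.mem_range.2 h, h2, h3⟩
      · have : i = j := by omega
        subst this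
        rw [hu'] at h3
        exact absurd h3 (hloop _ _)

/-- The choice of the parameter `p`. -/
theorem choice (k t d : ℕ) (h : (k : ℝ) / 2 + Real.sqrt (2 * k * t) < d) :
    ∃ p : ℕ, (k + p) * (p + 1) + 2 * (k * t) < 2 * d * (p + 1) := by
  rcases Nat.eq_zero_or_pos (k * t) with h0 | h0
  · refine ⟨0, ?_⟩
    have h1 : (2 * k * t : ℝ) = 0 := by
      have : ((k * t : ℕ) : ℝ) = 0 := by rw [h0]; simp
      push_cast at this
      linarith
    rw [h1, Real.sqrt_zero, add_zero] at h
    have h2 : (k : ℝ) < 2 * d := by linarith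
    have h3 : k < 2 * d := by exact_mod_cast h2
    rw [h0]
    omega
  · set s := ⌈Real.sqrt (2 * k * t)⌉₊ with hs
    have hpos : (0 : ℝ) < 2 * k * t := by
      have : (0 : ℝ) < ((k * t : ℕ) : ℝ) := by exact_mod_cast h0
      push_cast at this
      linarith
    have hq := Real.sqrt_pos.2 hpos
    have hs1 : 0 < s := Nat.ceil_pos.2 hq
    have hs2 : Real.sqrt (2 * k * t) ≤ s := Nat.le_ceil _
    have hs3 : (s : ℝ) < Real.sqrt (2 * k * t) + 1 := Nat.ceil_lt_add_one hq.le
    have hsq : Real.sqrt (2 * k * t) * Real.sqrt (2 * k * t) = 2 * k * t :=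
      Real.mul_self_sqrt hpos.le
    refine ⟨s - 1, ?_⟩
    have e : s - 1 + 1 = s := by omega
    rw [e]
    have e2 : ((s - 1 : ℕ) : ℝ) = s - 1 := by
      rw [Nat.cast_sub hs1]; simp
    have key : ((k : ℝ) + ((s - 1 : ℕ) : ℝ)) * s + 2 * (k * t) < 2 * d * s := by
      rw [e2]
      have hsp : (0 : ℝ) < s := by exact_mod_cast hs1
      nlinarith [mul_le_mul_of_nonneg_left hs2 hq.le, mul_lt_mul_of_pos_right h hsp,
        mul_lt_mul_of_pos_right hs3 hsp]
    exact_mod_cast key

end Pool.Agent.Helper95.Stein
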